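import Pool.Agent.V7H69.KS.Final

/-!
# Storage modification machines are stronger than Kolmogorov-Uspenskii machines in real time
-/

set_option autoImplicit false

namespace Pool.Agent.Results.MP_538d4f_lc.NoRealTimeH69

open Pool.Agent.V7H69.KS

/-- There is a storage modification machine which no Kolmogorov-Uspenskii machine simulates in real
time. -/
theorem result : ∃ M : SMM, ∀ K : KUM, ¬ Dev.Simulates K.toDev M.toDev :=
  ⟨smm, no_simulation⟩

end Pool.Agent.Results.MP_538d4f_lc.NoRealTimeH69
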